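import Pool.Agent.BEF.Stmts

/-!
# Row APZ of squad BEF (MP_be01ff_an): approximations of all degrees
-/

set_option autoImplicit false

namespace Pool.Agent.BEF.H41

open Set Filter Topology MeasureTheory
open scoped InnerProductSpace
open Pool.Agent.BE01

theorem slm_mono {H : Type} [NormedAddCommGroup H] [InnerProductSpace ℝ H] {m : ℕ}
    {S : H →L[ℝ] H} {ω : ℝ} {φ : Fin m → H} {M M' : ℕ} (h : M ≤ M') (hS : Slm S ω φ M') :
    Slm S ω φ M :=
  ⟨hS.one, fun n ho h3 hn => hS.odd n ho h3 (hn.trans h)⟩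

theorem apz (gli : GliStmt) (baz : BazStmt) (stz : StzStmt) : ApzStmt := by
  intro X Y H _ _ _ _ _ _ A W m p N
  induction N with
  | zero =>
    intro a0 ω φ hp hω hE hS
    obtain ⟨R, hR, hA, hRe⟩ := baz X Y H A W m p a0 ω φ hE
    have hA' : Apz W p a0 ω φ (2 * p + 1) 0 (fun ψ z => W.SX ((ω ^ 2) • qw φ ψ z))
        (fun ψ z => (ω ^ 2) • qw φ ψ z) (R + 0) := by
      rw [add_zero]
      exact hA
    obtain ⟨F', P', q', R', h1, h2, h3⟩ := stz X Y H A W m p p a0 ω φ 0 _ _ R 0 hp le_rfl hω hE hS hR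
      (Submodule.zero_mem _) hA'
    refine ⟨F', 0, P', q', R', h1, fun i => Submodule.zero_mem _, ?_, ?_⟩
    · rw [zero_add] at h2
      rw [show F' + 0 = F' from add_zero F']
      exact h2
    · intro z
      rw [h3 z]
      congr 1
      apply intervalIntegral.integral_congr
      intro ψ _
      show ⟪R ψ z, pw φ ψ z⟫_ℝ = _
      rw [hRe ψ z]
  | succ N ih =>
    intro a0 ω φ hp hω hE hS
    obtain ⟨F1, F2, P, q, R, h1, h2, h3, h4⟩ := ih a0 ω φ hp hω hE (slm_mono (by omega) hS)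
    have hRm : R ∈ GE (Fin m ⊕ Fin m) H (2 * (p + N) + 3) := h3.R_mem
    obtain ⟨R1, hR1, R2, hR2, hRR⟩ :=
      (gli (Fin m ⊕ Fin m) H H (0 : H →L[ℝ] H) (2 * (p + N) + 3) R).2.2.2.2 hRm
    subst hRR
    have e1 : 2 * (p + N) + 3 = 2 * (p + N + 1) + 1 := by ring
    have e2 : 2 * (p + N) + 3 + 2 = 2 * (p + N + 1) + 3 := by ring
    have e3 : 2 * (p + (N + 1)) + 1 = 2 * (p + N + 1) + 1 := by ring
    have e4 : 2 * (p + (N + 1)) + 3 = 2 * (p + N + 1) + 3 := by ring
    rw [e2] at hR2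
    rw [e1] at hR1 h3
    rw [e3] at hS
    obtain ⟨F', P', q', R', g1, g2, g3⟩ := stz X Y H A W m p (p + N + 1) a0 ω φ (F1 + F2) P q R1 R2 hp
      (by omega) hω hE hS hR1 hR2 h3
    refine ⟨F1, F2 + F', P', q', R', h1, ?_, ?_, h4⟩
    · intro i
      refine Submodule.add_mem _ (h2 i) ?_
      unfold GP
      refine Submodule.mem_iSup_of_mem N ?_
      rw [MvPolynomial.mem_homogeneousSubmodule]
      have h := g1 i
      have e5 : 2 * (p + N + 1) + 1 = 2 * p + 3 + 2 * N := by ring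
      rw [e5] at h
      exact h
    · rw [e4, ← add_assoc]
      exact g2

end Pool.Agent.BEF.H41
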